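import Mathlib
import Pool.Agent.L7h88.TS.All

/-!
# Almost all odd integers `n` have many `k` with `q(n,k)` a prime `q` for which `p_q - q - 1`, `p_q - q + 1` have few divisors
-/

set_option autoImplicit false

namespace Pool.Agent.Results.MP_61a569_nt.AlmostAllOddIntegers

open Finset

/-- the `m`-th prime: `p 1 = 2`, `p 2 = 3` -/
noncomputable def p (m : ℕ) : ℕ := Nat.nth Nat.Prime (m - 1)

/-- each of the numbers `p_q - q - 1`, `p_q - q + 1` has at most `T` divisors -/
def FewDivisors (T : ℝ) (q : ℕ) : Prop :=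
  ((p q - q - 1).divisors.card : ℝ) ≤ T ∧ ((p q - q + 1).divisors.card : ℝ) ≤ T

open Classical in
/-- the `k`, `1 ≤ k < n - 2`, such that `q = φ(k) + φ(n-k)/2 + 1` is a prime and each of the numbers `p_q - q - 1`, `p_q - q + 1` has at
most `T` divisors -/
noncomputable def goodK (n : ℕ) (T : ℝ) : Finset ℕ := (Ico 1 (n - 2)).filter (fun k =>
  (Nat.totient k + Nat.totient (n - k) / 2 + 1).Prime ∧ FewDivisors T (Nat.totient k + Nat.totient (n - k) / 2 + 1))

open Classical in
/-- **Almost all odd integers.** -/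
theorem result : ∀ A : ℕ, ∃ C X₀ : ℕ, ∀ X : ℕ, X₀ ≤ X →
    (((Icc 1 X).filter (fun n : ℕ => n % 2 = 1 ∧ ((goodK n (Real.log n ^ C)).card : ℝ) < n / Real.log n ^ 7)).card : ℝ) ≤
      X / Real.log X ^ A :=
  Pool.Agent.L7h88.TS.fin2

end Pool.Agent.Results.MP_61a569_nt.AlmostAllOddIntegers
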