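import Mathlib
import Pool.Agent.L7h88.MW.ResA
import Pool.Agent.L7h88.MW.All

/-!
# Metric form of the totient problem for almost all odd `n`

`q(n,k) = φ(k) + φ(n-k)/2 + 1`.  For almost every `(α, β) ∈ (0, ∞)^2` and all integers `b, d`, outside a set of odd `n` with
`o(N / (log N)^K)` elements up to `N`, for every `K`, there are at least `n / (log n)^9` numbers `k`, `1 ≤ k < n - 2`, for which
`q = q(n,k)`, `⌊α (p_q - q)⌋ + b` and `⌊β (p_q - q)⌋ + d` are primes.

Behind this is a general theorem (`Pool.Agent.L7h88.MW.gen`): for almost every `(α_1, …, α_t)`, in almost all windows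
`(M_n, M_n + R_n]` with `R_n ≥ √M_n / (log n)^C` and for arbitrary subsets all the `⌊α_i u⌋ + b_i` are primes for the expected number
of the `u` in the subset.
-/

set_option autoImplicit false

namespace Pool.Agent.Results.MP_61a569_nt.MetricAlmostAllOdd

open Finset MeasureTheory Filter Topology

open Classical in
/-- `E` has `o(N / (log N)^K)` elements up to `N`, for every `K` -/
def Thin (E : ℕ → Prop) : Prop := ∀ K : ℕ,
  Tendsto (fun N : ℕ => (#((Icc 1 N).filter E) : ℝ) * (Real.log N) ^ K / N) atTop (𝓝 0)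

/-- the `m`-th prime, `p 1 = 2` -/
noncomputable def p (m : ℕ) : ℕ := Nat.nth Nat.Prime (m - 1)

/-- `q n k = φ(k) + φ(n - k) / 2 + 1` -/
def q (n k : ℕ) : ℕ := Nat.totient k + Nat.totient (n - k) / 2 + 1

/-- `⌊α (p_r - r)⌋ + b` and `⌊β (p_r - r)⌋ + d` are primes -/
def Both (α β : ℝ) (b d : ℤ) (r : ℕ) : Prop :=
  (⌊α * ((p r - r : ℕ) : ℝ)⌋ + b).toNat.Prime ∧ (⌊β * ((p r - r : ℕ) : ℝ)⌋ + d).toNat.Prime

open Classical in
/-- the number of the `k`, `1 ≤ k < n - 2`, for which `r = q n k` is a prime with `Both` -/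
noncomputable def adm (α β : ℝ) (b d : ℤ) (n : ℕ) : ℕ :=
  #((Ico 1 (n - 2)).filter fun k => (q n k).Prime ∧ Both α β b d (q n k))

/-- For almost every `(α, β)` in the positive quadrant and all integers `b`, `d`: all odd `n` outside a thin set have at least
`n / (log n)^9` numbers `k`, `1 ≤ k < n - 2`, such that `q = q(n,k)`, `⌊α (p_q - q)⌋ + b` and `⌊β (p_q - q)⌋ + d` are primes. -/
theorem result : ∀ᵐ α : Fin 2 → ℝ, (∀ i, 0 < α i) → ∀ b d : ℤ,
    Thin fun n => n % 2 = 1 ∧ (adm (α 0) (α 1) b d n : ℝ) < n / (Real.log n) ^ 9 := by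
  classical
  filter_upwards [Pool.Agent.L7h88.MW.resA Pool.Agent.L7h88.MW.gen Pool.Agent.L7h88.MW.g1 Pool.Agent.L7h88.MW.g2]
    with α hα hpos b d
  have h1 := hα hpos ![b, d]
  have e : ∀ n, (Pool.Agent.L7h88.MW.AK α ![b, d] n).card = adm (α 0) (α 1) b d n := by
    intro n
    unfold Pool.Agent.L7h88.MW.AK adm
    congr 1
    refine Finset.filter_congr fun k _ => ?_
    rw [Fin.forall_fin_two]
    rfl
  intro K
  have h2 := h1 K
  simp only [e] at h2
  convert h2

end Pool.Agent.Results.MP_61a569_nt.MetricAlmostAllOdd
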