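import Pool.Agent.L7h88.TS.All
import Pool.Agent.L7h2.SS.Star

/-!
# All odd integers near `f_n(x)` (for example `α ^ n`, `β 2 ^ n`), `x` almost every real number, are good

For almost every `x > a` and all large `n` every odd integer `m` within `n ^ A` of `f_n(x)` has at least `m / (log m) ^ 7` integers
`k`, `1 ≤ k < m - 2`, such that `q = q(m, k)` is a prime and each of `p_q - q - 1`, `p_q - q + 1` has at most `(log m) ^ C`
divisors.

Here `f_n` are any functions on `(a, ∞)` with `f_n(x) / x` nondecreasing and `n ^ δ ≤ log f_n(x) ≤ n ^ D`, and `C` depends only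
on `δ`, `D` and `A`. The sequences `f_n(x)` are sparse: `X` natural numbers are below `exp (X ^ D)`, while the theorem on almost
all odd integers (`AlmostAllOddIntegers`) allows `X / (log X) ^ W` exceptions. The exceptional set has a saving of an arbitrary
fixed power of the logarithm if `C` is large, and a family of starshaped functions avoids such a set for almost every `x`
(`Pool/Agent/R482/ST`).
-/

set_option autoImplicit false

namespace Pool.Agent.Results.MP_61a569_nt.NearRealSequences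

open Finset Filter MeasureTheory

/-- the `m`-th prime: `p 1 = 2`, `p 2 = 3` -/
noncomputable def p (m : ℕ) : ℕ := Nat.nth Nat.Prime (m - 1)

/-- each of the numbers `p_q - q - 1`, `p_q - q + 1` has at most `T` divisors -/
def FewDivisors (T : ℝ) (q : ℕ) : Prop :=
  ((p q - q - 1).divisors.card : ℝ) ≤ T ∧ ((p q - q + 1).divisors.card : ℝ) ≤ T

open Classical in
/-- the `k`, `1 ≤ k < m - 2`, such that `q = φ(k) + φ(m-k)/2 + 1` is a prime and each of the numbers `p_q - q - 1`, `p_q - q + 1` has at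
most `T` divisors -/
noncomputable def goodK (m : ℕ) (T : ℝ) : Finset ℕ := (Ico 1 (m - 2)).filter (fun k =>
  (Nat.totient k + Nat.totient (m - k) / 2 + 1).Prime ∧ FewDivisors T (Nat.totient k + Nat.totient (m - k) / 2 + 1))

/-- The functions `f n` are positive on `(a, ∞)`, `f n x / x` is a nondecreasing function of `x > a`, and
`n ^ δ ≤ log (f n x) ≤ n ^ D` for every `x > a` and all large `n` (depending on `x`). For example `f n x = x * 2 ^ n`, `a = 0`,
or `f n x = x ^ (n + 1)`, `a = 1`, with `δ < 1 < D`. -/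
structure Family (a δ D : ℝ) (f : ℕ → ℝ → ℝ) : Prop where
  pos : ∀ (n : ℕ) (x : ℝ), a < x → 0 < f n x
  star : ∀ (n : ℕ) (x y : ℝ), a < x → x ≤ y → f n x / x ≤ f n y / y
  growth : ∀ x : ℝ, a < x → ∀ᶠ n : ℕ in atTop, (n : ℝ) ^ δ ≤ Real.log (f n x) ∧ Real.log (f n x) ≤ (n : ℝ) ^ D

/-- For all `δ > 0`, `D`, `A` there is a `C` such that for all families `f` as above on `(a, ∞)`, `a ≥ 0`: for almost every
`x > a`, for all large `n`, all odd `m` with `|m - f n x| ≤ n ^ A` have at least `m / (log m) ^ 7` integers `k` in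
`goodK m ((log m) ^ C)`. -/
theorem result (δ D A : ℝ) (hδ : 0 < δ) : ∃ C : ℕ, ∀ (a : ℝ) (f : ℕ → ℝ → ℝ), 0 ≤ a → Family a δ D f →
    ∀ᵐ x : ℝ, a < x → ∀ᶠ n : ℕ in atTop, ∀ m : ℕ, m % 2 = 1 → |(m : ℝ) - f n x| ≤ (n : ℝ) ^ A →
      (m : ℝ) / Real.log m ^ 7 ≤ ((goodK m (Real.log m ^ C)).card : ℝ) := by
  classical
  obtain ⟨W, hW⟩ := exists_nat_ge ((A + |D| + 2) / δ)
  rw [div_le_iff₀ hδ, mul_comm] at hW
  obtain ⟨C, X₀, h⟩ := Pool.Agent.L7h88.TS.fin2 W
  refine ⟨C, fun a f ha hf => ?_⟩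
  have hthin : Pool.Agent.L7h2.SS.ThinW W
      {m : ℕ | 1 ≤ m ∧ m % 2 = 1 ∧ ((goodK m (Real.log m ^ C)).card : ℝ) < m / Real.log m ^ 7} := by
    refine ⟨X₀, fun X hX => le_trans (le_of_eq ?_) (h X hX)⟩
    rw [← Set.ncard_coe_finset]
    congr 2
    ext m
    simp only [Set.mem_ofPred_eq, coe_filter, mem_Icc]
    exact ⟨fun ⟨⟨h1, h2, h3⟩, h4⟩ => ⟨⟨h1, h4⟩, h2, h3⟩, fun ⟨⟨h1, h4⟩, h2, h3⟩ => ⟨⟨h1, h2, h3⟩, h4⟩⟩
  have hmain := Pool.Agent.L7h2.SS.star_thinW hthin hδ hW ha (f := f)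
    (fun n x y hx hxy => ⟨hf.pos n x hx, hf.star n x y hx hxy⟩) hf.growth
  filter_upwards [hmain] with x hx hax
  filter_upwards [hx hax] with n hn m hm hmn
  by_contra hcon
  rw [not_le] at hcon
  have hm1 : 1 ≤ m := by omega
  exact absurd hmn (not_le.2 (hn m ⟨hm1, hm, hcon⟩))

end Pool.Agent.Results.MP_61a569_nt.NearRealSequences
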