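import Mathlib
import Pool.Agent.L7h88.TS.All

/-!
# For almost all odd `n` almost all odd integers near `n/2` are values of `q(n,k)`, each for many `k`
-/

set_option autoImplicit false

namespace Pool.Agent.Results.MP_61a569_nt.ValuesNearHalf

open Finset

/-- the `k`, `1 ≤ k < n - 2`, with `q(n,k) = φ(k) + φ(n-k)/2 + 1` equal to `q` -/
def K (n q : ℕ) : Finset ℕ := (Ico 1 (n - 2)).filter (fun k => Nat.totient k + Nat.totient (n - k) / 2 + 1 = q)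

/-- the condition modulo 3: `n ≡ 0`, or `n ≡ q ≡ 1`, or `n ≡ 2` and `q ≢ 0` -/
def Mod3 (n q : ℕ) : Prop := n % 3 = 0 ∨ (n % 3 = 1 ∧ q % 3 = 1) ∨ (n % 3 = 2 ∧ q % 3 ≠ 0)

open Classical in
/-- For every `y` with `√n/2 ≤ y ≤ √n (log n)^D`: all but at most `y/(log n)^A` of the odd `q` with `y < n + 1 - 2 q ≤ 2 y` and with the
condition modulo 3 have at least `n/(y (log n)^5)` numbers `k` with `q(n,k) = q`. -/
def AlmostAllValues (A D n : ℕ) : Prop := ∀ y : ℕ, √(n : ℝ) / 2 ≤ y → (y : ℝ) ≤ √(n : ℝ) * Real.log n ^ D →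
  (((Icc 1 n).filter (fun q : ℕ => q % 2 = 1 ∧ y + 2 * q < n + 1 ∧ n + 1 ≤ 2 * y + 2 * q ∧ Mod3 n q ∧
    ((K n q).card : ℝ) < n / (y * Real.log n ^ 5))).card : ℝ) ≤ y / Real.log n ^ A

open Classical in
/-- **Values of `q(n,k)` near `n/2`, for almost all odd `n`.** -/
theorem result : ∀ A D : ℕ, ∃ X₀ : ℕ, ∀ X : ℕ, X₀ ≤ X →
    (((Icc 1 X).filter (fun n : ℕ => n % 2 = 1 ∧ ¬ AlmostAllValues A D n)).card : ℝ) ≤ X / Real.log X ^ A :=
  Pool.Agent.L7h88.TS.fin1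

end Pool.Agent.Results.MP_61a569_nt.ValuesNearHalf
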